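import Pool.Agent.H53.UK.Targets

/-!
MP_c62aed_lc, uniformly random `k`-CNFs, permanent lines and work memory: row SEU. A session is a
decision tree.
-/

set_option autoImplicit false

namespace Pool.Agent.H1.UK

open Finset
open Pool.Agent.H53.UK
open Pool.Agent.H53.MC (Clause Falsified SatBy Line Circuit)
open Pool.Agent.H53.MW (Follows Session DerivesL geL DerivesR cb qp th0 th1)
open Pool.Agent.H97.SHL (DT bl)

theorem lfu_mono {n k : ℕ} {ι : Type} (H : ι → KC n k) (Z : Set ι) {r : ℕ}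
    {R R' : Finset (Fin n → Bool)} (h : R' ⊆ R) (hR : LfU H Z r R) : LfU H Z r R' := by
  obtain ⟨T, h1, h2, h3⟩ := hR
  exact ⟨T, h1, h2, fun x hx => h3 x (h hx)⟩

/-- the points excluded in one step are covered by few clauses -/
theorem seu_follows (hTOU : T_TOU) {n k m μ : ℕ} (H : Fin m × Fin μ → KC n k) (t q : ℕ)
    (r : Fin m → Fin μ) (P : Line n → Prop) (E : Finset (Fin n → Bool))
    (hP : ∀ Q, P Q → LfU H (AL r) q (Qᶜ \ E))
    (W : Finset (Line n)) (L : Line n) (h : Follows (cnfU (FU H r)) P t W L) :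
    ∃ T : Finset (Fin m × Fin μ), (∀ c ∈ T, c ∈ AL r) ∧ T.card ≤ t + t * q ∧
      ∀ x, (∀ Q ∈ W, x ∈ Q) → x ∉ L → x ∉ E → ∃ c ∈ T, VC (H c) x := by
  classical
  obtain ⟨R, T, hR, hRP, hT, hTF, himp⟩ := h
  choose TQ hTQ1 hTQ2 hTQ3 using fun Q hQ => hP Q (hRP Q hQ)
  choose jc hjc using hTF
  let S1 : Finset (Fin m × Fin μ) := R.attach.biUnion fun p => TQ p.1 p.2
  let S2 : Finset (Fin m × Fin μ) := T.attach.image fun c => (jc c.1 c.2, r (jc c.1 c.2))
  have hR1 : ∀ c ∈ S2 ∪ S1, c ∈ AL r := by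
    intro c hc
    rcases Finset.mem_union.1 hc with h | h
    · obtain ⟨b, -, hb⟩ := Finset.mem_image.1 h
      rw [← hb]
      exact rfl
    · obtain ⟨p, -, hp⟩ := Finset.mem_biUnion.1 h
      exact hTQ1 p.1 p.2 c hp
  refine ⟨S2 ∪ S1, hR1, ?_, ?_⟩
  · have hc1 : S1.card ≤ t * q := by
      have h1 := Finset.card_biUnion_le_card_mul R.attach (fun p => TQ p.1 p.2) q
        (fun p _ => hTQ2 p.1 p.2)
      rw [Finset.card_attach] at h1
      exact h1.trans (Nat.mul_le_mul_right q hR)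
    have hc2 : S2.card ≤ t := by
      have h1 := Finset.card_image_le (s := T.attach) 
        (f := fun c => (jc c.1 c.2, r (jc c.1 c.2)))
      rw [Finset.card_attach] at h1
      exact h1.trans hT
    have h1 := Finset.card_union_le S2 S1
    omega
  · intro x hxW hxL hxE
    have h1 : ¬ ((∀ Q ∈ R, x ∈ Q) ∧ ∀ c ∈ T, ¬ Falsified c x) := fun h =>
      hxL (himp x hxW h.1 h.2)
    rw [not_and_or] at h1
    rcases h1 with h1 | h1
    · push Not at h1
      obtain ⟨Q, hQ, hxQ⟩ := h1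
      obtain ⟨c, hc, hv⟩ := hTQ3 Q hQ x (by
        rw [Finset.mem_sdiff, Finset.mem_compl]
        exact ⟨hxQ, hxE⟩)
      exact ⟨c, Finset.mem_union_right _ (Finset.mem_biUnion.2
        ⟨⟨Q, hQ⟩, Finset.mem_attach _ _, hc⟩), hv⟩
    · push Not at h1
      obtain ⟨c, hc, hf⟩ := h1
      refine ⟨(jc c hc, r (jc c hc)), Finset.mem_union_left _ (Finset.mem_image.2
        ⟨⟨c, hc⟩, Finset.mem_attach _ _, rfl⟩), (hTOU.1 _ x).1 ?_⟩
      have h2 : toCl (H (jc c hc, r (jc c hc))) = c := hjc c hc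
      rw [h2]
      exact hf

/-- SEU: a session is a decision tree. -/
theorem pf_SEU (hTOU : T_TOU) (hSEQ : Pool.Agent.H97.SHL.T_SEQ)
    (hDTR : Pool.Agent.H53.MW.T_DTR) : T_SEU := by
  intro n k m μ H t q s ht hs rr P 𝓠 E L hP hses
  obtain ⟨i, W, his, hW0, hF, hstep⟩ := hses
  obtain ⟨Mj, hMj⟩ : ∃ Mj : ℕ → Finset (Fin n → Bool), ∀ j x, x ∈ Mj j ↔
      (j ≤ i ∧ ∀ L' ∈ W j, x ∈ L') := by
    classical
    exact ⟨fun j => univ.filter fun x => j ≤ i ∧ ∀ L' ∈ W j, x ∈ L', fun j x => by simp⟩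
  obtain ⟨r, hr⟩ : ∃ r : ℕ, r = t * t + t * t * q := ⟨_, rfl⟩
  rw [← hr]
  obtain ⟨Lf0, hLf0⟩ : ∃ Lf0 : Finset (Fin n → Bool) → Prop,
    Lf0 = fun R => LfU H (AL rr) r (R ∩ (Lᶜ \ E)) := ⟨_, rfl⟩
  have hdown : ∀ Q Q', Lf0 Q → Q' ⊆ Q → Lf0 Q' := by
    intro Q Q' h1 h2
    rw [hLf0] at h1 ⊢
    exact lfu_mono H (AL rr) (Finset.inter_subset_inter h2 (Finset.Subset.refl _)) h1
  have key := hSEQ (Fin n → Bool) (qp 𝓠 t) Lf0 hdown (i + 1) n Mj
    (by
      intro j hj0 hj1
      obtain ⟨j', rfl⟩ : ∃ j', j = j' + 1 := ⟨j - 1, by omega⟩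
      obtain ⟨h1, h2, -⟩ := hstep j' (by omega)
      unfold qp
      rw [Finset.mem_image]
      refine ⟨W (j' + 1), ?_, ?_⟩
      · rw [Finset.mem_filter, Finset.mem_powerset]
        exact ⟨h1, h2⟩
      · congr 1
        ext x
        rw [hMj, Finset.mem_filter]
        constructor
        · intro h
          exact ⟨by omega, h.2⟩
        · intro h
          exact ⟨Finset.mem_univ _, h.2⟩)
    (by
      intro j hj
      rw [hLf0]
      rcases Nat.lt_or_ge j i with hji | hji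
      · obtain ⟨h1, h2, h3⟩ := hstep j hji
        classical
        have hall : ∀ Q : Line n, ∃ T : Finset (Fin m × Fin μ), (∀ c ∈ T, c ∈ AL rr) ∧
            T.card ≤ t + t * q ∧
            (Q ∈ W (j + 1) → ∀ x, (∀ Q ∈ W j, x ∈ Q) → x ∉ Q → x ∉ E → ∃ c ∈ T, VC (H c) x) := by
          intro Q
          by_cases hQ : Q ∈ W (j + 1)
          · rcases h3 Q hQ with h4 | h4
            · refine ⟨∅, fun c hc => absurd hc (Finset.notMem_empty _), by simp, ?_⟩
              intro _ x hx hxQ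
              exact absurd (hx Q h4) hxQ
            · obtain ⟨T, a1, a2, a3⟩ := seu_follows hTOU H t q rr P E hP (W j) Q h4
              exact ⟨T, a1, a2, fun _ => a3⟩
          · exact ⟨∅, fun c hc => absurd hc (Finset.notMem_empty _), by simp,
              fun h => absurd h hQ⟩
        choose TQ b1 b2 b3 using hall
        refine ⟨(W (j + 1)).biUnion TQ, ?_, ?_, ?_⟩
        · intro c hc
          obtain ⟨Q, -, hQ⟩ := Finset.mem_biUnion.1 hc
          exact b1 Q c hQ
        · have h5 := Finset.card_biUnion_le_card_mul (W (j + 1)) TQ (t + t * q)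
            (fun Q _ => b2 Q)
          have h6 := Nat.mul_le_mul_right (t + t * q) h2
          rw [hr]
          calc _ ≤ t * (t + t * q) := h5.trans h6
            _ = t * t + t * t * q := by ring
        · intro x hx
          rw [Finset.mem_inter, Finset.mem_sdiff, Finset.mem_sdiff, Finset.mem_compl, hMj,
            hMj] at hx
          obtain ⟨⟨⟨-, hx1⟩, hx2⟩, hx3, hx4⟩ := hx
          rw [not_and] at hx2
          have hx5 := hx2 (by omega)
          push Not at hx5
          obtain ⟨Q, hQ, hxQ⟩ := hx5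
          obtain ⟨c, hc, hv⟩ := b3 Q hQ x hx1 hxQ hx4
          exact ⟨c, Finset.mem_biUnion.2 ⟨Q, hQ, hc⟩, hv⟩
      · obtain ⟨T, a1, a2, a3⟩ := seu_follows hTOU H t q rr P E hP (W i) L hF
        refine ⟨T, a1, ?_, ?_⟩
        · have h5 : t + t * q ≤ t * (t + t * q) := Nat.le_mul_of_pos_left _ ht
          rw [hr]
          calc _ ≤ t * (t + t * q) := a2.trans h5
            _ = t * t + t * t * q := by ring
        · intro x hx
          rw [Finset.mem_inter, Finset.mem_sdiff, Finset.mem_sdiff, Finset.mem_compl, hMj,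
            hMj] at hx
          obtain ⟨⟨⟨-, hx1⟩, hx2⟩, hx3, hx4⟩ := hx
          have hj' : j = i := by omega
          rw [hj'] at hx1
          exact a3 x hx1 hx3 hx4)
    (by omega) (by omega)
  have e : Mj 0 \ Mj (i + 1) = univ := by
    ext x
    rw [Finset.mem_sdiff, hMj, hMj, hW0]
    simp
  rw [e] at key
  have h2 := (hDTR (Fin n → Bool) (qp 𝓠 t) Lf0 hdown univ n (i + 1) key).2 (Lᶜ \ E)
    (LfU H (AL rr) r) (fun R hR => by
      rw [hLf0] at hR
      exact hR)
  rw [Finset.univ_inter] at h2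
  exact ⟨i + 1, by omega, h2⟩

end Pool.Agent.H1.UK
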