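import Pool.Agent.H53.UK.Targets

/-!
MP_c62aed_lc, board uk: row SVU. A candidate which is not inside the cube is violated by few points
of a spread set.
-/

set_option autoImplicit false

namespace Pool.Agent.H1.UK

open Finset
open Pool.Agent.H53.UK
open Pool.Agent.H53.MW (cb)

/-- The number of the candidates inside grows when the variables of a candidate are added. -/
theorem cnU_lt {n k : ℕ} {ι : Type} [Fintype ι] (H : ι → KC n k)
    (p : Finset (Fin n) × (Fin n → Bool)) (c : ι) (y : Fin n → Bool)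
    (hy : ∀ i ∈ p.1, y i = p.2 i) (hv : VC (H c) y) (h : ¬ InU H p c) :
    cnU H p + 1 ≤ cnU H (p.1 ∪ (H c).1.1, y) := by
  classical
  unfold cnU
  rw [Nat.card_eq_fintype_card, Nat.card_eq_fintype_card, Fintype.card_subtype,
    Fintype.card_subtype]
  apply Nat.succ_le_of_lt
  apply Finset.card_lt_card
  rw [Finset.ssubset_iff_of_subset]
  · refine ⟨c, ?_, ?_⟩
    · simp only [Finset.mem_filter, Finset.mem_univ, true_and]
      exact ⟨Finset.subset_union_right, hv⟩
    · simp only [Finset.mem_filter, Finset.mem_univ, true_and]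
      exact h
  · intro c' hc'
    simp only [Finset.mem_filter, Finset.mem_univ, true_and] at hc' ⊢
    refine ⟨hc'.1.trans Finset.subset_union_left, fun i hi => ?_⟩
    dsimp only
    rw [hy i (hc'.1 hi)]
    exact hc'.2 i hi

theorem pf_SVU : T_SVU := by
  classical
  intro n k ι _ H d s₀ w hH p Q hS hw c hc
  by_cases hsub : (H c).1.1 ⊆ p.1
  · have hE : IsEmpty {y // y ∈ Q ∧ VC (H c) y} := ⟨by
      rintro ⟨y, hy, hv⟩
      apply hc
      refine ⟨hsub, fun i hi => ?_⟩
      rw [← hS.inc y hy _ (hsub hi)]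
      exact hv i hi⟩
    rw [Nat.card_of_isEmpty, Nat.zero_mul]
    exact Nat.zero_le _
  · by_cases hne : ∃ y, y ∈ Q ∧ VC (H c) y
    · obtain ⟨y0, hy0, hv0⟩ := hne
      have hcardA : (p.1 ∪ (H c).1.1).card ≤ w + k := by
        refine (Finset.card_union_le _ _).trans ?_
        have h1 : (H c).1.1.card = k := (H c).1.2
        omega
      have h1 : cnU H (p.1 ∪ (H c).1.1, y0) ≤ s₀ := hH _ hcardA
      have h2 := cnU_lt H p c y0 (hS.inc y0 hy0) hv0 hc
      have h3 : wtU H d s₀ p * 2 ^ d ≤ wtU H d s₀ (p.1 ∪ (H c).1.1, y0) := by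
        unfold wtU
        rw [← pow_add]
        apply Nat.pow_le_pow_right (by norm_num)
        rw [min_eq_left h1, min_eq_left (by omega)]
        calc d * cnU H p + d = d * (cnU H p + 1) := by ring
          _ ≤ d * cnU H (p.1 ∪ (H c).1.1, y0) := Nat.mul_le_mul_left _ h2
      have h4 : Nat.card {y // y ∈ Q ∧ VC (H c) y} ≤ (cb Q (p.1 ∪ (H c).1.1) y0).card := by
        rw [Nat.card_eq_fintype_card, Fintype.card_subtype]
        apply Finset.card_le_card
        intro y hy
        simp only [Finset.mem_filter, Finset.mem_univ, true_and] at hy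
        unfold cb
        rw [Finset.mem_filter]
        refine ⟨hy.1, fun i hi => ?_⟩
        rcases Finset.mem_union.1 hi with hi | hi
        · rw [hS.inc y hy.1 i hi, hS.inc y0 hy0 i hi]
        · have a1 := hy.2 i hi
          have a2 := hv0 i hi
          revert a1 a2
          cases y i <;> cases y0 i <;> cases (H c).2 i <;> simp
      have h5 := hS.spr (p.1 ∪ (H c).1.1) y0 Finset.subset_union_left
      have hpos : 0 < wtU H d s₀ p := by unfold wtU; positivity
      refine Nat.le_of_mul_le_mul_right ?_ hpos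
      calc Nat.card {y // y ∈ Q ∧ VC (H c) y} * 2 ^ d * wtU H d s₀ p
          = Nat.card {y // y ∈ Q ∧ VC (H c) y} * (wtU H d s₀ p * 2 ^ d) := by ring
        _ ≤ (cb Q (p.1 ∪ (H c).1.1) y0).card * wtU H d s₀ (p.1 ∪ (H c).1.1, y0) :=
            Nat.mul_le_mul h4 h3
        _ ≤ Q.card * wtU H d s₀ p := h5
    · have hE : IsEmpty {y // y ∈ Q ∧ VC (H c) y} := ⟨fun y => hne ⟨y.1, y.2⟩⟩
      rw [Nat.card_of_isEmpty, Nat.zero_mul]
      exact Nat.zero_le _

end Pool.Agent.H1.UK
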